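import Pool.Agent.T9h90.SP.Asm2

/-!
# Avoiding a separable permutation, over `RCA_0`

Partial answer to question Q1, in all models of `RCA_0` (`N : L2Structure`, `IsModelRCA0 N`).
The permutations (`Sep`, `Same`, `Spine`, `Good`, `lay`) are defined in `Pool.Agent.T9h90.SP.Perm`,
the principles (`RTp`, `RT22`, `ADS`) in `Pool.Agent.T9h90.SP.Stmt`.
-/

set_option autoImplicit false

universe u

namespace Pool.Agent.Results.MP_29428b_lc.SeparableInModels

open Pool.Agent.Helper617.RM
open Pool.Agent.T9h90.SP (Sep Same Good lay)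
open Pool.Agent.T9h90.SP.Stmt (RTp RT22 ADS)

/-- **Theorem.** Let `N` be a model of `RCA_0` and `p` a separable permutation, and suppose that
`N` satisfies `RT^2_2(p)`.

1. `N` satisfies `ADS`.
2. If `p` is the permutation of a tree `q` in the class `Good c` for a colour `c` (closed under
`v ↦ a (+)_c v` for every `a` in which each letter is below all later ones or above all later
ones, and under `v ↦ 1 (+)_(!c) v`; here `(+)_true` is the direct and `(+)_false` the skew
sum), then `N` satisfies `RT^2_2`.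
3. This holds if `p` is layered (a direct sum of decreasing permutations).
4. This holds if `p` has at most four letters and is neither `1203` nor `2130`. -/
theorem result (N : L2Structure.{u}) [IsModelRCA0 N] (p : Sep) (h : RTp N p) :
    ADS N ∧
    (∀ (c : Bool) (q : Sep), Same p q → Good c q → RT22 N) ∧
    (∀ (m : ℕ) (l : List ℕ), Same p (lay m l) → RT22 N) ∧
    (p.size ≤ 4 →
      ¬ (p.size = 4 ∧ p.val 0 = 1 ∧ p.val 1 = 2 ∧ p.val 2 = 0 ∧ p.val 3 = 3) →
      ¬ (p.size = 4 ∧ p.val 0 = 2 ∧ p.val 1 = 1 ∧ p.val 2 = 3 ∧ p.val 3 = 0) → RT22 N) := by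
  refine ⟨Pool.Agent.T9h90.SP.stmt_ads h, fun c q hs hc => Pool.Agent.T9h90.SP.stmt_rt h hs hc,
    fun m l hs => Pool.Agent.T9h90.SP.stmt_rt h hs (Pool.Agent.T9h90.SP.good_lay m l),
    fun h4 h1 h2 => ?_⟩
  obtain ⟨c, q, hs, hv, hc⟩ := Pool.Agent.T9h89.SP.ex4 p h4 h1 h2
  exact Pool.Agent.T9h90.SP.stmt_rt h ⟨hs, hv⟩ hc

end Pool.Agent.Results.MP_29428b_lc.SeparableInModels
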